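import Pool.Agent.helper58.UF.T4

/-! T7: a good family with four edges on `6k` points and few used `2k`-sets. -/

open UF58

namespace UF18

open Finset

/-- the four edges as sets of natural numbers. -/
def N (k : ℕ) : Fin 4 → Finset ℕ
  | 0 => Ico 0 k ∪ Ico (2 * k) (4 * k)
  | 1 => Ico k (4 * k)
  | 2 => Ico 1 (k + 1) ∪ Ico (4 * k) (6 * k)
  | 3 => (Ico 0 1 ∪ Ico (k + 1) (2 * k)) ∪ Ico (4 * k) (6 * k)

lemma N_lt {k : ℕ} (hk : 2 ≤ k) (i : Fin 4) : ∀ m ∈ N k i, m < 6 * k := by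
  intro m hm
  fin_cases i <;> simp [N] at hm <;> omega

lemma N_card {k : ℕ} (hk : 2 ≤ k) (i : Fin 4) : (N k i).card = 3 * k := by
  fin_cases i
  · show (Ico 0 k ∪ Ico (2 * k) (4 * k)).card = 3 * k
    rw [card_union_of_disjoint, Nat.card_Ico, Nat.card_Ico]
    · omega
    · rw [Finset.disjoint_left]; intro a ha hb; simp at ha hb; omega
  · show (Ico k (4 * k)).card = 3 * k
    rw [Nat.card_Ico]; omega
  · show (Ico 1 (k + 1) ∪ Ico (4 * k) (6 * k)).card = 3 * k
    rw [card_union_of_disjoint, Nat.card_Ico, Nat.card_Ico]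
    · omega
    · rw [Finset.disjoint_left]; intro a ha hb; simp at ha hb; omega
  · show ((Ico 0 1 ∪ Ico (k + 1) (2 * k)) ∪ Ico (4 * k) (6 * k)).card = 3 * k
    rw [card_union_of_disjoint, card_union_of_disjoint, Nat.card_Ico, Nat.card_Ico, Nat.card_Ico]
    · omega
    · rw [Finset.disjoint_left]; intro a ha hb; simp at ha hb; omega
    · rw [Finset.disjoint_left]; intro a ha hb; simp at ha hb; omega

variable {k : ℕ} (hk : 2 ≤ k)

/-- the four edges. -/
def E (i : Fin 4) : Finset (Fin (6 * k)) := (N k i).attachFin (N_lt hk i)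

lemma mem_E {i : Fin 4} {x : Fin (6 * k)} : x ∈ E hk i ↔ (x : ℕ) ∈ N k i := by
  unfold E
  rw [Finset.mem_attachFin]

lemma E_card (i : Fin 4) : (E hk i).card = 3 * k := by
  unfold E
  rw [Finset.card_attachFin, N_card hk]

/-- six witness points. -/
def pt (j : Fin 6) : Fin (6 * k) :=
  match j with
  | 0 => ⟨0, by omega⟩
  | 1 => ⟨1, by omega⟩
  | 2 => ⟨k, by omega⟩
  | 3 => ⟨k + 1, by omega⟩
  | 4 => ⟨2 * k, by omega⟩
  | 5 => ⟨4 * k, by omega⟩

/-- traces of the edges on the witness points. -/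
def sig : Fin 4 → Finset (Fin 6)
  | 0 => {0, 1, 4}
  | 1 => {2, 3, 4}
  | 2 => {1, 2, 5}
  | 3 => {0, 3, 5}

lemma pt_mem (i : Fin 4) (j : Fin 6) : pt hk j ∈ E hk i ↔ j ∈ sig i := by
  rw [mem_E]
  fin_cases i <;> fin_cases j <;> simp [pt, sig, N] <;> omega

lemma sig_of_union {a b c d : Fin 4} (h : E hk a ∪ E hk b = E hk c ∪ E hk d) :
    sig a ∪ sig b = sig c ∪ sig d := by
  ext j
  have := Finset.ext_iff.1 h (pt hk j)
  simpa only [Finset.mem_union, pt_mem] using this

lemma sig3 : ∀ a b d : Fin 4, a ≠ b → a ≠ d → b ≠ d → sig a ∪ sig b ≠ sig a ∪ sig d := by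
  decide

lemma sig4 : ∀ a b c d : Fin 4, a ≠ b → a ≠ c → a ≠ d → b ≠ c → b ≠ d → c ≠ d →
    sig a ∪ sig b ≠ sig c ∪ sig d := by
  decide

lemma sig_inj : ∀ a b : Fin 4, sig a = sig b → a = b := by
  decide

lemma fin4 : ∀ i : Fin 4, i = 0 ∨ i = 1 ∨ i = 2 ∨ i = 3 := by decide

lemma E_inj : Function.Injective (E hk) := by
  intro a b h
  have h' : sig a = sig b := by
    ext j
    have := Finset.ext_iff.1 h (pt hk j)
    simpa only [pt_mem] using this
  exact sig_inj a b h'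

/-- the family. -/
def G : Finset (Finset (Fin (6 * k))) := univ.image (E hk)

lemma mem_G {F : Finset (Fin (6 * k))} : F ∈ G hk ↔ ∃ i, E hk i = F := by
  unfold G; simp

lemma G_card : (G hk).card = 4 := by
  unfold G
  rw [Finset.card_image_of_injective _ (E_inj hk)]; rfl

lemma inter_side (i j : Fin 4) (h : (i = 0 ∨ i = 1) ∧ (j = 2 ∨ j = 3)) :
    (E hk i ∩ E hk j).card < 2 * k := by
  have key : ∀ (a b : ℕ), b = a + k → (∀ x ∈ E hk i ∩ E hk j, a ≤ (x : ℕ) ∧ (x : ℕ) < b) →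
      (E hk i ∩ E hk j).card < 2 * k := by
    intro a b hab hx
    have h1 : ((E hk i ∩ E hk j).map Fin.valEmbedding) ⊆ Ico a b := by
      intro y hy
      rw [Finset.mem_map] at hy
      obtain ⟨x, hx', rfl⟩ := hy
      rw [Finset.mem_Ico]
      exact hx x hx'
    have h2 := Finset.card_le_card h1
    rw [Finset.card_map, Nat.card_Ico] at h2
    omega
  rcases h with ⟨rfl | rfl, rfl | rfl⟩
  · refine key 0 k (by omega) ?_
    intro x hx
    rw [Finset.mem_inter, mem_E, mem_E] at hx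
    simp [N] at hx; omega
  · refine key 0 k (by omega) ?_
    intro x hx
    rw [Finset.mem_inter, mem_E, mem_E] at hx
    simp [N] at hx; omega
  · refine key k (2 * k) (by omega) ?_
    intro x hx
    rw [Finset.mem_inter, mem_E, mem_E] at hx
    simp [N] at hx; omega
  · refine key k (2 * k) (by omega) ?_
    intro x hx
    rw [Finset.mem_inter, mem_E, mem_E] at hx
    simp [N] at hx; omega

/-- first common part. -/
def T1' : Finset (Fin (6 * k)) := (Ico (2 * k) (4 * k)).attachFin (by intro m hm; simp at hm; omega)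
/-- second common part. -/
def T2' : Finset (Fin (6 * k)) := (Ico (4 * k) (6 * k)).attachFin (by intro m hm; simp at hm; omega)
/-- the symmetric difference. -/
def W' : Finset (Fin (6 * k)) := (Ico 0 (2 * k)).attachFin (by intro m hm; simp at hm; omega)

lemma T1_card : (T1' (k := k)).card = 2 * k := by
  unfold T1'; rw [Finset.card_attachFin, Nat.card_Ico]; omega

lemma T2_card : (T2' (k := k)).card = 2 * k := by
  unfold T2'; rw [Finset.card_attachFin, Nat.card_Ico]; omega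

lemma inter01 : E hk 0 ∩ E hk 1 = T1' := by
  ext x
  rw [Finset.mem_inter, mem_E, mem_E, T1', Finset.mem_attachFin]
  simp [N]; omega

lemma inter23 : E hk 2 ∩ E hk 3 = T2' := by
  ext x
  rw [Finset.mem_inter, mem_E, mem_E, T2', Finset.mem_attachFin]
  have := x.2
  simp [N]; omega

lemma symm01 : symmDiff (E hk 0) (E hk 1) = W' := by
  ext x
  rw [Finset.mem_symmDiff, mem_E, mem_E, W', Finset.mem_attachFin]
  simp [N]; omega

lemma symm23 : symmDiff (E hk 2) (E hk 3) = W' := by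
  ext x
  rw [Finset.mem_symmDiff, mem_E, mem_E, W', Finset.mem_attachFin]
  have := x.2
  simp [N]; omega

lemma cases_ij (i j : Fin 4) (hij : i ≠ j) :
    (i = 0 ∧ j = 1) ∨ (i = 1 ∧ j = 0) ∨ (i = 2 ∧ j = 3) ∨ (i = 3 ∧ j = 2) ∨
    ((i = 0 ∨ i = 1) ∧ (j = 2 ∨ j = 3)) ∨ ((j = 0 ∨ j = 1) ∧ (i = 2 ∨ i = 3)) := by
  revert i j; decide

lemma inter_le (i j : Fin 4) (hij : i ≠ j) : (E hk i ∩ E hk j).card ≤ 2 * k := by
  rcases cases_ij i j hij with ⟨rfl, rfl⟩ | ⟨rfl, rfl⟩ | ⟨rfl, rfl⟩ | ⟨rfl, rfl⟩ | h | h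
  · rw [inter01, T1_card]
  · rw [Finset.inter_comm, inter01, T1_card]
  · rw [inter23, T2_card]
  · rw [Finset.inter_comm, inter23, T2_card]
  · exact (inter_side hk i j h).le
  · rw [Finset.inter_comm]; exact (inter_side hk j i h).le

lemma symm_eq (i j : Fin 4) (h : (E hk i ∩ E hk j).card = 2 * k) :
    symmDiff (E hk i) (E hk j) = W' := by
  by_cases hij : i = j
  · subst hij
    rw [Finset.inter_self, E_card] at h; omega
  rcases cases_ij i j hij with ⟨rfl, rfl⟩ | ⟨rfl, rfl⟩ | ⟨rfl, rfl⟩ | ⟨rfl, rfl⟩ | h' | h'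
  · exact symm01 hk
  · rw [symmDiff_comm]; exact symm01 hk
  · exact symm23 hk
  · rw [symmDiff_comm]; exact symm23 hk
  · exact absurd h (inter_side hk i j h').ne
  · rw [Finset.inter_comm] at h; exact absurd h (inter_side hk j i h').ne

lemma G_good : Good k (6 * k) (G hk) where
  card := by
    intro F hF
    obtain ⟨i, rfl⟩ := (mem_G hk).1 hF
    exact E_card hk i
  free := by
    apply twoUnionFree_of (r := 3 * k)
    · intro F hF
      obtain ⟨i, rfl⟩ := (mem_G hk).1 hF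
      exact E_card hk i
    · intro A hA B hB D hD h1 h2 h3
      obtain ⟨a, rfl⟩ := (mem_G hk).1 hA
      obtain ⟨b, rfl⟩ := (mem_G hk).1 hB
      obtain ⟨d, rfl⟩ := (mem_G hk).1 hD
      intro h
      exact sig3 a b d (fun e => h1 (by rw [e])) (fun e => h2 (by rw [e])) (fun e => h3 (by rw [e]))
        (sig_of_union hk h)
    · intro A hA B hB C hC D hD h1 h2 h3 h4 h5 h6
      obtain ⟨a, rfl⟩ := (mem_G hk).1 hA
      obtain ⟨b, rfl⟩ := (mem_G hk).1 hB
      obtain ⟨c, rfl⟩ := (mem_G hk).1 hC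
      obtain ⟨d, rfl⟩ := (mem_G hk).1 hD
      intro h
      exact sig4 a b c d (fun e => h1 (by rw [e])) (fun e => h2 (by rw [e])) (fun e => h3 (by rw [e]))
        (fun e => h4 (by rw [e])) (fun e => h5 (by rw [e])) (fun e => h6 (by rw [e]))
        (sig_of_union hk h)
  inter := by
    intro F hF F' hF' hne
    obtain ⟨i, rfl⟩ := (mem_G hk).1 hF
    obtain ⟨j, rfl⟩ := (mem_G hk).1 hF'
    exact inter_le hk i j (fun e => hne (by rw [e]))

lemma pair_card {i j : Fin 4} (h : (E hk i ∩ E hk j).card = 2 * k) :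
    (powersetCard (2 * k) (E hk i) ∪ powersetCard (2 * k) (E hk j)).card + 1 ≤
      2 * (3 * k).choose (2 * k) := by
  have h1 := Finset.card_union_add_card_inter (powersetCard (2 * k) (E hk i))
    (powersetCard (2 * k) (E hk j))
  rw [Finset.card_powersetCard, Finset.card_powersetCard, E_card, E_card] at h1
  have h2 : 0 < (powersetCard (2 * k) (E hk i) ∩ powersetCard (2 * k) (E hk j)).card := by
    rw [Finset.card_pos]
    refine ⟨E hk i ∩ E hk j, ?_⟩
    rw [Finset.mem_inter, Finset.mem_powersetCard, Finset.mem_powersetCard]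
    exact ⟨⟨Finset.inter_subset_left, h⟩, ⟨Finset.inter_subset_right, h⟩⟩
  omega

lemma used_sub : used k (6 * k) (G hk) ⊆
    ((powersetCard (2 * k) (E hk 0) ∪ powersetCard (2 * k) (E hk 1)) ∪
    (powersetCard (2 * k) (E hk 2) ∪ powersetCard (2 * k) (E hk 3))) ∪ {W'} := by
  classical
  intro p hp
  unfold used at hp
  rw [Finset.mem_filter, Finset.mem_powersetCard] at hp
  obtain ⟨⟨_, hc⟩, hp⟩ := hp
  rcases hp with ⟨F, hF, hpF⟩ | ⟨F, hF, F', hF', h1, h2⟩
  · obtain ⟨i, rfl⟩ := (mem_G hk).1 hF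
    have : p ∈ powersetCard (2 * k) (E hk i) := Finset.mem_powersetCard.2 ⟨hpF, hc⟩
    have hi := fin4 i
    simp only [Finset.mem_union]
    rcases hi with rfl | rfl | rfl | rfl <;> tauto
  · obtain ⟨i, rfl⟩ := (mem_G hk).1 hF
    obtain ⟨j, rfl⟩ := (mem_G hk).1 hF'
    have h1' : (E hk i ∩ E hk j).card = 2 * k := by
      rw [← h1]
    have h3 := symm_eq hk i j h1'
    have h4 : p = W' := by
      rw [h2, ← h3]
    rw [h4]
    exact Finset.mem_union_right _ (Finset.mem_singleton_self _)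

theorem t7' (k : ℕ) (hk : 2 ≤ k) : ∃ G : Finset (Finset (Fin (6 * k))), Good k (6 * k) G ∧
    G.card = 4 ∧ (used k (6 * k) G).card + 1 ≤ 4 * (3 * k).choose (2 * k) := by
  refine ⟨G hk, G_good hk, G_card hk, ?_⟩
  have h1 := Finset.card_le_card (used_sub hk)
  have h2 := Finset.card_union_le ((powersetCard (2 * k) (E hk 0) ∪ powersetCard (2 * k) (E hk 1)) ∪
    (powersetCard (2 * k) (E hk 2) ∪ powersetCard (2 * k) (E hk 3))) {W' (k := k)}
  have h3 := Finset.card_union_le (powersetCard (2 * k) (E hk 0) ∪ powersetCard (2 * k) (E hk 1))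
    (powersetCard (2 * k) (E hk 2) ∪ powersetCard (2 * k) (E hk 3))
  have h4 := pair_card hk (i := 0) (j := 1) (by rw [inter01, T1_card])
  have h5 := pair_card hk (i := 2) (j := 3) (by rw [inter23, T2_card])
  rw [Finset.card_singleton] at h2
  omega

end UF18

namespace UF58

/-- T7. -/
theorem t7 (k : ℕ) (hk : 2 ≤ k) : ∃ G : Finset (Finset (Fin (6 * k))), Good k (6 * k) G ∧
    G.card = 4 ∧ (used k (6 * k) G).card + 1 ≤ 4 * (3 * k).choose (2 * k) :=
  UF18.t7' k hk

end UF58
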